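import Pool.Agent.U541.SP.Group

set_option autoImplicit false

/-!
# Gluing arbitrary pieces to the lifts of a circle in cyclic branched covers

## The manifolds

Let `K ⊂ S³` be the pretzel knot with columns of `3, -3, 1` crossings, and let `C` be an unknotted
circle around the third column.  It bounds a disc which meets the two strands of that column; the
strands are antiparallel, so `C` has linking number `0` with `K`.  Let `Σ n` be the `n`-fold cyclic
cover of `S³` branched along `K`.  The circle `C` has `n` lifts to `Σ n`, one in each sheet.  Let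
`E n` be the exterior of these `n` lifts in `Σ n`.  On its `i`-th boundary torus there are the lift
`μ i` of the meridian of `C` and the lift `λ i` of the preferred longitude of `C` (the product of
the two downward meridians of the strands).

For `i` modulo `n` let `Y i` be an arbitrary compact 3-manifold with a boundary torus, and `m i`,
`l i` a basis of the first homology of the torus.  Let `M` be the union of `E n` and of the
`Y i`, glued so that `μ i` is identified with `m i` and `λ i` with `l i`.  The pieces `Y i` may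
be hyperbolic, Seifert, solid tori (Dehn surgery), ..., and different in different sheets.

## The theorem

Suppose that, for each `i`, `l i` is cofinal in every left order of the fundamental group of
`Y i` (more precisely, `Solid (Y i) (l i)`: in every action by order automorphisms on a linear
order the fixed points of `l i` are fixed by the whole group).  Then every homomorphism from the
fundamental group of `M` to a left-orderable group is trivial, for all `n`.

Examples of such pieces: solid tori, unless `l i` is null-homotopic in it; twisted `I`-bundles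
over the Klein bottle, for each slope `l i` except the rational longitude; unions of the product
of a circle and a planar surface with such pieces, all glued by identifying `l` with the circle
fibre.

If all pieces are solid tori and `m i = (l i)^b` for all `i`, with `b` an integer, then `M` is the
`n`-fold cyclic branched cover of the pretzel knot `P(3, -3, 2b + 1)`.

## The idea

The group of `E n` is generated by elements `x i`, `v i`, `z i` (the lifts of the loops around the
first two columns and of the meridian of `C`).  Put `c i = x i * x i * v i * (x i)⁻¹`,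
`D i = x i * x i * v i * (z i)⁻¹`.  Then `c i = c (i+1) * ((D (i+1))⁻¹ * c (i+1) * D (i+1))` and
`D (i+1) = f i * D i * (c i)⁻¹ * D i`, where `f i = x i * z i * (x i * v i)⁻¹ * (x i)⁻¹`.  The
only thing one has to know about `f i` is that it fixes the fixed points of `c i`: no sign of `f i`
is needed (`Pool.Agent.TH821.Chain`).  A fixed point of `c i` is `x i u` with `u` fixed by `x i v i`,
hence by `l i`; by hypothesis `u` is fixed by the group of `Y i`, which contains the meridian
`z i = m i`.
-/

namespace Pool.Agent.Results.MP_3d425c_gt.GluedPieces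

open Pool.Agent.W705.Borr Pool.Agent.TH821.Chain Pool.Agent.U541.PB Pool.Agent.U541.SP

/-- A nontrivial group is left-orderable if it carries a strict total order that is invariant
under left multiplication. -/
def LeftOrderable (G : Type*) [Group G] : Prop :=
  Nontrivial G ∧ ∃ lt : G → G → Prop, IsStrictTotalOrder G lt ∧
    ∀ a b c : G, lt a b ↔ lt (c * a) (c * b)

/-- `l` is cofinal in every left order of `Y`: every element is at most some power of `l`. -/
def CofinalInEveryOrder (Y : Type) [Group Y] (l : Y) : Prop :=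
  ∀ lt : Y → Y → Prop, IsStrictTotalOrder Y lt → (∀ a b c : Y, lt a b ↔ lt (c * a) (c * b)) →
    ∀ g : Y, ∃ k : ℤ, g = l ^ k ∨ lt g (l ^ k)

/-- One crossing of a vertical twist region: if the two strands, both oriented downwards, have
meridians `(x, y)` (left, right) above the crossing, then they have meridians `(y, y⁻¹ x y)`
below it.  The inverse is the crossing of the other handedness. -/
def crossing (G : Type*) [Group G] : Equiv.Perm (G × G) where
  toFun w := (w.2, w.2⁻¹ * w.1 * w.2)
  invFun w := (w.1 * w.2 * w.1⁻¹, w.1)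
  left_inv w := by ext <;> simp [mul_assoc]
  right_inv w := by ext <;> simp [mul_assoc]

/-- The meridian `a j` of the arc at the top of the diagram of `K` that joins the top right end of
column `j - 1` to the top left end of column `j`, oriented into column `j`. -/
def arc (j : Fin 3) : FreeGroup (Fin 3 ⊕ Unit) := FreeGroup.of (Sum.inl j)

/-- The meridian of the front arc of the circle `C`. -/
def circle : FreeGroup (Fin 3 ⊕ Unit) := FreeGroup.of (Sum.inr ())

/-- The downward meridians of the two strands of column `j` above its crossings; in column `2`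
they are taken below the circle `C`, which passes behind the two strands and then, below, in front
of them. -/
def below : Fin 3 → FreeGroup (Fin 3 ⊕ Unit) × FreeGroup (Fin 3 ⊕ Unit) :=
  ![(arc 0, (arc 1)⁻¹), (arc 1, (arc 2)⁻¹),
    (circle⁻¹ * arc 2 * circle, circle⁻¹ * (arc 0)⁻¹ * circle)]

/-- The numbers of crossings in the columns of `K`. -/
def base : Fin 3 → ℤ := ![3, -3, 1]

/-- The downward meridians of the two strands at the bottom of column `j`. -/
def bottom (j : Fin 3) : FreeGroup (Fin 3 ⊕ Unit) × FreeGroup (Fin 3 ⊕ Unit) :=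
  (crossing (FreeGroup (Fin 3 ⊕ Unit)) ^ base j) (below j)

/-- The bottom right end of column `j` is joined to the bottom left end of column `j + 1`. -/
def relator (j : Fin 3) : FreeGroup (Fin 3 ⊕ Unit) := (bottom j).2 * (bottom (j + 1)).1

/-- The loop around the two strands of column `2`, which is also the preferred longitude of the
circle `C`. -/
def loop : FreeGroup (Fin 3 ⊕ Unit) := arc 2 * (arc 0)⁻¹

/-- The circle `C` closes up behind the two strands of column `2`. -/
def circleRelator : FreeGroup (Fin 3 ⊕ Unit) := circle * loop * circle⁻¹ * loop⁻¹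

/-- The Wirtinger relators of the link `K ∪ C`. -/
def linkRelators : Set (FreeGroup (Fin 3 ⊕ Unit)) := Set.range relator ∪ {circleRelator}

/-- The quotient of the group of the link `K ∪ C` by the `n`-th power of the meridian `a 0` of
`K`. -/
def OrbifoldGroup (n : ℕ) : Type := PresentedGroup (linkRelators ∪ {arc 0 ^ n})

instance (n : ℕ) : Group (OrbifoldGroup n) := inferInstanceAs (Group (PresentedGroup _))

/-- The projection to the orbifold group. -/
def proj (n : ℕ) : FreeGroup (Fin 3 ⊕ Unit) →* OrbifoldGroup n := PresentedGroup.mk _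

theorem crossing_pos_two {G : Type*} [Group G] (x y : G) :
    (crossing G ^ (2 : ℤ)) (x, y) =
      ((x * y)⁻¹ * x * (x * y), (x * y)⁻¹ * y * (x * y)) := by
  rw [zpow_two]
  show ((y⁻¹ * x * y), (y⁻¹ * x * y)⁻¹ * y * (y⁻¹ * x * y)) = _
  ext
  · show y⁻¹ * x * y = (x * y)⁻¹ * x * (x * y); group
  · show (y⁻¹ * x * y)⁻¹ * y * (y⁻¹ * x * y) = (x * y)⁻¹ * y * (x * y); group

theorem crossing_neg_two {G : Type*} [Group G] (x y : G) :
    (crossing G ^ (-2 : ℤ)) (x, y) =
      ((x * y) * x * (x * y)⁻¹, (x * y) * y * (x * y)⁻¹) := by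
  rw [zpow_neg, Equiv.Perm.inv_eq_iff_eq, crossing_pos_two]
  ext
  · show x = _; group
  · show y = _; group

theorem crossing_one {G : Type*} [Group G] (x y : G) :
    (crossing G ^ (1 : ℤ)) (x, y) = (y, y⁻¹ * x * y) := by
  rw [zpow_one]; rfl

theorem crossing_three {G : Type*} [Group G] (x y : G) :
    (crossing G ^ (3 : ℤ)) (x, y) = ((x * y)⁻¹ * y * (x * y),
      (x * y)⁻¹ * (y⁻¹ * x * y) * (x * y)) := by
  have h : (3 : ℤ) = 2 + 1 := by norm_num
  rw [h, zpow_add, Equiv.Perm.mul_apply, crossing_one, crossing_pos_two]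
  ext
  · show _ = (x * y)⁻¹ * y * (x * y); group
  · show _ = (x * y)⁻¹ * (y⁻¹ * x * y) * (x * y); group

theorem crossing_neg_three {G : Type*} [Group G] (x y : G) :
    (crossing G ^ (-3 : ℤ)) (x, y) = ((x * y) * (x * y * x⁻¹) * (x * y)⁻¹,
      (x * y) * x * (x * y)⁻¹) := by
  have h : (-3 : ℤ) = -2 + -1 := by norm_num
  have h1 : (crossing G ^ (-1 : ℤ)) (x, y) = (x * y * x⁻¹, x) := by
    rw [zpow_neg, zpow_one]; rfl
  rw [h, zpow_add, Equiv.Perm.mul_apply, h1, crossing_neg_two]
  ext
  · show _ = (x * y) * (x * y * x⁻¹) * (x * y)⁻¹; group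
  · show _ = (x * y) * x * (x * y)⁻¹; group

theorem bottom_zero : bottom 0 = ((arc 0 * (arc 1)⁻¹)⁻¹ * (arc 1)⁻¹ * (arc 0 * (arc 1)⁻¹),
    (arc 0 * (arc 1)⁻¹)⁻¹ * ((arc 1)⁻¹⁻¹ * arc 0 * (arc 1)⁻¹) * (arc 0 * (arc 1)⁻¹)) :=
  crossing_three _ _

theorem bottom_one : bottom 1 =
    ((arc 1 * (arc 2)⁻¹) * (arc 1 * (arc 2)⁻¹ * (arc 1)⁻¹) * (arc 1 * (arc 2)⁻¹)⁻¹,
      (arc 1 * (arc 2)⁻¹) * arc 1 * (arc 1 * (arc 2)⁻¹)⁻¹) :=
  crossing_neg_three _ _

theorem bottom_two : bottom 2 = (circle⁻¹ * (arc 0)⁻¹ * circle,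
    (circle⁻¹ * (arc 0)⁻¹ * circle)⁻¹ * (circle⁻¹ * arc 2 * circle) *
      (circle⁻¹ * (arc 0)⁻¹ * circle)) :=
  crossing_one _ _

/-- All relators of the orbifold group have degree `0`. -/
theorem degree_rel (n : ℕ) : ∀ w ∈ linkRelators ∪ {arc 0 ^ n},
    FreeGroup.lift (Sum.elim (fun _ : Fin 3 => (Multiplicative.ofAdd 1 : Multiplicative (ZMod n)))
      (fun _ : Unit => 1)) w = 1 := by
  rintro w ((⟨j, rfl⟩ | rfl) | rfl)
  · fin_cases j
    · show FreeGroup.lift _ ((bottom 0).2 * (bottom 1).1) = 1
      rw [bottom_zero, bottom_one]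
      simp [arc]
    · show FreeGroup.lift _ ((bottom 1).2 * (bottom 2).1) = 1
      rw [bottom_one, bottom_two]
      simp [arc, circle]
    · show FreeGroup.lift _ ((bottom 2).2 * (bottom 0).1) = 1
      rw [bottom_two, bottom_zero]
      simp [arc, circle]
  · simp [circleRelator, arc, circle, loop]
  · simp only [arc, map_pow, FreeGroup.lift_apply_of, Sum.elim_inl]
    rw [← ofAdd_nsmul]
    simp

/-- The homomorphism of the orbifold group to `Z/n` that sends all meridians `a j` of `K` to `1`
and the meridian of the circle to `0`. -/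
def degree (n : ℕ) : OrbifoldGroup n →* Multiplicative (ZMod n) :=
  PresentedGroup.toGroup (degree_rel n)

/-- The fundamental group of the exterior `E n` of the `n` lifts of the circle `C` in the `n`-fold
cyclic cover of `S³` branched along `K`. -/
def ExteriorGroup (n : ℕ) : Type := (degree n).ker

instance (n : ℕ) : Group (ExteriorGroup n) := inferInstanceAs (Group (degree n).ker)

theorem degree_circle (n : ℕ) : degree n (proj n circle) = 1 :=
  PresentedGroup.toGroup.of (degree_rel n)

theorem degree_arc (n : ℕ) (j : Fin 3) : degree n (proj n (arc j)) = Multiplicative.ofAdd 1 :=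
  PresentedGroup.toGroup.of (degree_rel n)

theorem degree_loop (n : ℕ) : degree n (proj n loop) = 1 := by
  unfold loop
  rw [map_mul, map_inv, map_mul, map_inv, degree_arc, degree_arc, mul_inv_cancel]

theorem degree_lifted (n : ℕ) (i : ZMod n) (w : FreeGroup (Fin 3 ⊕ Unit))
    (hw : degree n (proj n w) = 1) :
    degree n (proj n (arc 0 ^ i.val * w * (arc 0 ^ i.val)⁻¹)) = 1 := by
  rw [map_mul, map_mul, map_inv, map_mul, map_mul, map_inv, hw, mul_one, mul_inv_cancel]

/-- The conjugate of an element of degree `0` by the `i`-th power of the meridian `a 0`: the lift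
of the loop to the `i`-th sheet. -/
def lifted (n : ℕ) (i : ZMod n) (w : FreeGroup (Fin 3 ⊕ Unit)) (hw : degree n (proj n w) = 1) :
    ExteriorGroup n :=
  ⟨proj n (arc 0 ^ i.val * w * (arc 0 ^ i.val)⁻¹), degree_lifted n i w hw⟩

/-- The meridian of the `i`-th lift of the circle `C`. -/
def meridian (n : ℕ) (i : ZMod n) : ExteriorGroup n := lifted n i circle (degree_circle n)

/-- The longitude of the `i`-th lift of the circle `C`. -/
def longitude (n : ℕ) (i : ZMod n) : ExteriorGroup n := lifted n i loop (degree_loop n)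

/-- The free product of the group of `E n` and of the groups of the pieces. -/
def FreeUnion (n : ℕ) (Y : ZMod n → Type) [∀ i, Group (Y i)] : Type :=
  Monoid.Coprod (ExteriorGroup n) (Monoid.CoprodI Y)

instance (n : ℕ) (Y : ZMod n → Type) [∀ i, Group (Y i)] : Group (FreeUnion n Y) :=
  inferInstanceAs (Group (Monoid.Coprod (ExteriorGroup n) (Monoid.CoprodI Y)))

/-- The inclusion of the group of `E n` in the free product. -/
def inExterior {n : ℕ} (Y : ZMod n → Type) [∀ i, Group (Y i)] : ExteriorGroup n →* FreeUnion n Y :=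
  Monoid.Coprod.inl

/-- The inclusion of the group of the `i`-th piece in the free product. -/
def inPiece {n : ℕ} (Y : ZMod n → Type) [∀ i, Group (Y i)] (i : ZMod n) : Y i →* FreeUnion n Y :=
  Monoid.Coprod.inr.comp Monoid.CoprodI.of

/-- The identifications of the peripheral elements. -/
def gluing {n : ℕ} (Y : ZMod n → Type) [∀ i, Group (Y i)] (m l : ∀ i, Y i) :
    Set (FreeUnion n Y) :=
  {w | ∃ i, w = inExterior Y (meridian n i) * (inPiece Y i (m i))⁻¹ ∨
    w = inExterior Y (longitude n i) * (inPiece Y i (l i))⁻¹}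

/-- The fundamental group of the union of `E n` and the pieces `Y i`: the meridian of the `i`-th
lift is identified with `m i` and its longitude with `l i`. -/
def GluedGroup (n : ℕ) (Y : ZMod n → Type) [∀ i, Group (Y i)] (m l : ∀ i, Y i) : Type :=
  FreeUnion n Y ⧸ Subgroup.normalClosure (gluing Y m l)

instance (n : ℕ) (Y : ZMod n → Type) [∀ i, Group (Y i)] (m l : ∀ i, Y i) :
    Group (GluedGroup n Y m l) :=
  inferInstanceAs (Group (FreeUnion n Y ⧸ Subgroup.normalClosure (gluing Y m l)))

/-- `G` has no nontrivial homomorphism to a left-orderable group; in particular it is not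
left-orderable. -/
theorem not_lo {G : Type} [Group G]
    (h : ∀ (H : Type) [Group H], LeftOrderable H → ∀ f : G →* H, ∀ g, f g = 1) :
    ¬ LeftOrderable G := by
  intro hG
  obtain ⟨a, b, hab⟩ := hG.1
  have key := h G hG (MonoidHom.id _)
  exact hab ((key a).trans (key b).symm)

theorem lo_order {H : Type*} [Group H] (hH : LeftOrderable H) :
    ∃ _ : LinearOrder H, ∀ a b c : H, a ≤ b ↔ c * a ≤ c * b := by
  classical
  obtain ⟨_, lt, hlt, hinv⟩ := hH
  refine ⟨linearOrderOfSTO lt, ?_⟩
  intro a b c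
  show (a = b ∨ lt a b) ↔ (c * a = c * b ∨ lt (c * a) (c * b))
  rw [mul_right_inj, ← hinv]

theorem relA_aux {G : Type*} [Group G] (s X V : G)
    (R : (s * (X⁻¹ * s)⁻¹)⁻¹ * ((X⁻¹ * s)⁻¹⁻¹ * s * (X⁻¹ * s)⁻¹) * (s * (X⁻¹ * s)⁻¹) *
      (((X⁻¹ * s) * ((X * V)⁻¹ * s)⁻¹) * ((X⁻¹ * s) * ((X * V)⁻¹ * s)⁻¹ * (X⁻¹ * s)⁻¹) *
        ((X⁻¹ * s) * ((X * V)⁻¹ * s)⁻¹)⁻¹) = 1) :
    s * (X * X * (V * V)) * s⁻¹ = X * X * (V * V) * (X * V)⁻¹ := by
  have h2 : (s * (X⁻¹ * s)⁻¹)⁻¹ * ((X⁻¹ * s)⁻¹⁻¹ * s * (X⁻¹ * s)⁻¹) * (s * (X⁻¹ * s)⁻¹) *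
      (((X⁻¹ * s) * ((X * V)⁻¹ * s)⁻¹) * ((X⁻¹ * s) * ((X * V)⁻¹ * s)⁻¹ * (X⁻¹ * s)⁻¹) *
        ((X⁻¹ * s) * ((X * V)⁻¹ * s)⁻¹)⁻¹) =
      X⁻¹ * X⁻¹ * s * X * X * V * V * s⁻¹ * X * V * V⁻¹ * V⁻¹ := by group
  rw [h2] at R
  calc s * (X * X * (V * V)) * s⁻¹
      = X * X * (X⁻¹ * X⁻¹ * s * X * X * V * V * s⁻¹ * X * V * V⁻¹ * V⁻¹) * V * V * V⁻¹ * X⁻¹ := by
        group
    _ = _ := by rw [R]; group

theorem relB_aux {G : Type*} [Group G] (s X V c : G)
    (R : ((X⁻¹ * s) * ((X * V)⁻¹ * s)⁻¹) * (X⁻¹ * s) * ((X⁻¹ * s) * ((X * V)⁻¹ * s)⁻¹)⁻¹ *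
      (c⁻¹ * s⁻¹ * c) = 1) :
    s * (V⁻¹ * c⁻¹) * s⁻¹ = X * V⁻¹ * c⁻¹ := by
  have h2 : ((X⁻¹ * s) * ((X * V)⁻¹ * s)⁻¹) * (X⁻¹ * s) * ((X⁻¹ * s) * ((X * V)⁻¹ * s)⁻¹)⁻¹ *
      (c⁻¹ * s⁻¹ * c) = V * X⁻¹ * s * V⁻¹ * c⁻¹ * s⁻¹ * c := by group
  rw [h2] at R
  calc s * (V⁻¹ * c⁻¹) * s⁻¹ = X * V⁻¹ * (V * X⁻¹ * s * V⁻¹ * c⁻¹ * s⁻¹ * c) * c⁻¹ := by group
    _ = _ := by rw [R]; group

theorem glued_trivial {n : ℕ} (hn : 0 < n) (Y : ZMod n → Type) [∀ i, Group (Y i)]
    (m l : ∀ i, Y i) (hY : ∀ i, Solid (Y i) (l i)) {H : Type} [Group H] (hH : LeftOrderable H)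
    (f : GluedGroup n Y m l →* H) (y : GluedGroup n Y m l) : f y = 1 := by
  obtain ⟨_, hinv⟩ := lo_order hH
  set μ := proj n with hμ
  have rel : ∀ w ∈ linkRelators, μ w = 1 := fun w hw => PresentedGroup.one_of_mem (Or.inl hw)
  set s := μ (arc 0) with hs0
  set X := s * (μ (arc 1))⁻¹ with hX
  set V := μ (arc 1) * (μ (arc 2))⁻¹ with hV
  set c := μ circle with hc
  have hs : s ^ n = 1 := by
    have h1 : μ (arc 0 ^ n) = 1 := PresentedGroup.one_of_mem (Or.inr rfl)
    rwa [map_pow] at h1
  have e1 : μ (arc 1) = X⁻¹ * s := by rw [hX]; group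
  have e2 : μ (arc 2) = (X * V)⁻¹ * s := by rw [hV, hX]; group
  have eW : μ loop = (X * V)⁻¹ := by
    show μ (arc 2 * (arc 0)⁻¹) = _
    rw [map_mul, map_inv, e2, ← hs0]; group
  have kc : Commute (X * V)⁻¹ c := by
    have h1 := rel circleRelator (Or.inr rfl)
    unfold circleRelator at h1
    rw [map_mul, map_mul, map_mul, map_inv, map_inv, mul_inv_eq_one, mul_inv_eq_iff_eq_mul] at h1
    rw [← eW]
    exact h1.symm
  have A : s * (X * X * (V * V)) * s⁻¹ = X * X * (V * V) * (X * V)⁻¹ := by
    apply relA_aux s X V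
    have h1 : μ ((bottom 0).2 * (bottom 1).1) = 1 := rel (relator 0) (Or.inl ⟨0, rfl⟩)
    rw [bottom_zero, bottom_one] at h1
    simp only [map_mul, map_inv] at h1
    rw [e1, e2] at h1
    exact h1
  have B : s * (V⁻¹ * c⁻¹) * s⁻¹ = X * V⁻¹ * c⁻¹ := by
    apply relB_aux s X V c
    have h1 : μ ((bottom 1).2 * (bottom 2).1) = 1 := rel (relator 1) (Or.inl ⟨1, rfl⟩)
    rw [bottom_one, bottom_two] at h1
    simp only [map_mul, map_inv] at h1
    rw [e1, e2] at h1
    exact h1
  have hgen : Subgroup.closure (insert s {X, V, c}) = ⊤ := by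
    set T := Subgroup.closure (insert s {X, V, c}) with hT
    have sub : ∀ z ∈ (insert s {X, V, c} : Set (OrbifoldGroup n)), z ∈ T :=
      fun z hz => Subgroup.subset_closure hz
    have ms : s ∈ T := sub _ (by simp)
    have mX : X ∈ T := sub _ (by simp)
    have mV : V ∈ T := sub _ (by simp)
    have key : ∀ j, μ (FreeGroup.of j) ∈ T := by
      rintro (j | j)
      · fin_cases j
        · exact ms
        · show μ (arc 1) ∈ T
          rw [e1]; exact mul_mem (inv_mem mX) ms
        · show μ (arc 2) ∈ T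
          rw [e2]; exact mul_mem (inv_mem (mul_mem mX mV)) ms
      · exact sub c (by simp)
    have top : Subgroup.closure (Set.range fun j => μ (FreeGroup.of j)) = ⊤ :=
      PresentedGroup.closure_range_of (linkRelators ∪ {arc 0 ^ n})
    rw [eq_top_iff, ← top, Subgroup.closure_le]
    rintro _ ⟨j, rfl⟩
    exact key j
  -- the homomorphisms from the groups of the exterior and of the pieces
  set π : FreeUnion n Y →* GluedGroup n Y m l :=
    QuotientGroup.mk' (Subgroup.normalClosure (gluing Y m l)) with hπ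
  set φ : (degree n).ker →* H := (f.comp π).comp (inExterior Y) with hφ
  set k : ∀ i, Y i →* H := fun i => (f.comp π).comp (inPiece Y i) with hk
  have dX : degree n X = 1 := by
    rw [hX, map_mul, map_inv, hs0, degree_arc, degree_arc, mul_inv_cancel]
  have dV : degree n V = 1 := by
    rw [hV, map_mul, map_inv, degree_arc, degree_arc, mul_inv_cancel]
  have dc : degree n c = 1 := degree_circle n
  have glue : ∀ (i : ZMod n) (e : ExteriorGroup n) (z : Y i),
      inExterior Y e * (inPiece Y i z)⁻¹ ∈ gluing Y m l → φ e = k i z := by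
    intro i e z h
    have h1 : π (inExterior Y e * (inPiece Y i z)⁻¹) = 1 :=
      (QuotientGroup.eq_one_iff _).mpr (Subgroup.subset_normalClosure h)
    have h2 : f (π (inExterior Y e * (inPiece Y i z)⁻¹)) = 1 := by rw [h1, map_one]
    rw [map_mul, map_mul, map_inv, map_inv, mul_inv_eq_one] at h2
    exact h2
  have hm : ∀ i, φ (kch (degree n) s i ⟨c, dc⟩) = k i (m i) := by
    intro i
    have e : kch (degree n) s i ⟨c, dc⟩ = meridian n i := by
      apply Subtype.ext
      show s ^ i.val * μ circle * (s ^ i.val)⁻¹ = μ (arc 0 ^ i.val * circle * (arc 0 ^ i.val)⁻¹)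
      rw [map_mul, map_mul, map_inv, map_pow]
    rw [e]
    exact glue i _ _ ⟨i, Or.inl rfl⟩
  have hl : ∀ i, φ (kch (degree n) s i (⟨X, dX⟩ * ⟨V, dV⟩)⁻¹) = k i (l i) := by
    intro i
    have e : kch (degree n) s i (⟨X, dX⟩ * ⟨V, dV⟩)⁻¹ = longitude n i := by
      apply Subtype.ext
      show s ^ i.val * (X * V)⁻¹ * (s ^ i.val)⁻¹ = μ (arc 0 ^ i.val * loop * (arc 0 ^ i.val)⁻¹)
      rw [map_mul, map_mul, map_inv, map_pow, eW]
    rw [e]
    exact glue i _ _ ⟨i, Or.inr rfl⟩
  obtain ⟨h1, h2⟩ := Pool.Agent.U541.SP.hom_trivial hinv hn hs hgen (degree n) (degree_arc n 0)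
    dX dV dc kc A B φ Y m l hY k hm hl
  have h3 : ∀ z : FreeUnion n Y, f (π z) = 1 := by
    have h4 : (show Monoid.Coprod (ExteriorGroup n) (Monoid.CoprodI Y) →* H from f.comp π) = 1 := by
      apply Monoid.Coprod.hom_ext
      · ext e
        exact h1 e
      · apply Monoid.CoprodI.ext_hom
        intro i
        ext z
        exact h2 i z
    exact fun z => DFunLike.congr_fun h4 z
  obtain ⟨z, rfl⟩ := QuotientGroup.mk'_surjective (Subgroup.normalClosure (gluing Y m l)) y
  exact h3 z

theorem solid_iff (Y : Type) [Group Y] (l : Y) (hY : LeftOrderable Y) :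
    Solid Y l ↔ CofinalInEveryOrder Y l := by
  classical
  constructor
  · intro h lt hlt hinv' g
    let _ : LinearOrder Y := linearOrderOfSTO lt
    have hinv : ∀ a b c : Y, a ≤ b ↔ c * a ≤ c * b := by
      intro a b c
      show (a = b ∨ lt a b) ↔ (c * a = c * b ∨ lt (c * a) (c * b))
      rw [mul_right_inj, ← hinv']
    set v : LowerSet Y := ⟨{x | ∃ k : ℤ, x ≤ l ^ k}, by
      rintro a b hba ⟨k, hk⟩
      exact ⟨k, hba.trans hk⟩⟩ with hv
    have mem_v : ∀ x : Y, x ∈ v ↔ ∃ k : ℤ, x ≤ l ^ k := fun x => Iff.rfl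
    have h1 : act hinv l v = v := by
      ext x
      rw [SetLike.mem_coe, SetLike.mem_coe, mem_act, mem_v, mem_v]
      constructor
      · rintro ⟨k, hk⟩
        refine ⟨k + 1, ?_⟩
        rw [hinv _ _ l⁻¹, add_comm, zpow_one_add, inv_mul_cancel_left]
        exact hk
      · rintro ⟨k, hk⟩
        refine ⟨k - 1, ?_⟩
        rw [hinv _ _ l, ← zpow_one_add, mul_inv_cancel_left]
        simpa using hk
    have h2 := h (LowerSet Y) (actHom hinv (MonoidHom.id Y)) v h1 g
    have h3 : act hinv g v = v := h2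
    have h4 : g ∈ act hinv g v := by
      rw [mem_act, inv_mul_cancel, mem_v]
      exact ⟨0, by rw [zpow_zero]⟩
    rw [h3, mem_v] at h4
    exact h4
  · intro h Ω _ ρ v hv g
    obtain ⟨_, lt, hlt, hinv⟩ := hY
    have hpow : ∀ k : ℤ, ρ (l ^ k) v = v := by
      intro k
      have h1 : l ∈ stab ρ v := hv
      exact zpow_mem h1 k
    -- no element moves the fixed point up
    have key : ∀ g : Y, ¬ v < ρ g v := by
      intro g hg
      obtain ⟨k, hk⟩ := h (fun a b => ρ a v < ρ b v ∨ (ρ a v = ρ b v ∧ lt a b))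
        { trichotomous := by
            intro a b h1 h2
            rw [not_or, not_and, not_lt] at h1 h2
            have e : ρ a v = ρ b v := le_antisymm h2.1 h1.1
            exact hlt.trichotomous a b (h1.2 e) (h2.2 e.symm)
          irrefl := by
            rintro a (h1 | ⟨-, h1⟩)
            · exact lt_irrefl _ h1
            · exact hlt.irrefl a h1
          trans := by
            rintro a b c (h1 | ⟨h1, h1'⟩) (h2 | ⟨h2, h2'⟩)
            · exact Or.inl (h1.trans h2)
            · exact Or.inl (h2 ▸ h1)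
            · exact Or.inl (h1 ▸ h2)
            · exact Or.inr ⟨h1.trans h2, hlt.trans a b c h1' h2'⟩ } (by
        intro a b c
        rw [map_mul, map_mul]
        show _ ↔ ρ c (ρ a v) < ρ c (ρ b v) ∨ (ρ c (ρ a v) = ρ c (ρ b v) ∧ lt (c * a) (c * b))
        rw [(ρ c).lt_iff_lt, (ρ c).injective.eq_iff, ← hinv]) g
      rcases hk with hk | hk | ⟨hk, -⟩
      · rw [hk, hpow] at hg; exact lt_irrefl _ hg
      · rw [hpow] at hk; exact lt_asymm hk hg
      · rw [hpow] at hk; rw [hk] at hg; exact lt_irrefl _ hg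
    rcases lt_trichotomy (ρ g v) v with h1 | h1 | h1
    · exfalso
      refine key g⁻¹ ?_
      rw [map_inv]
      show v < (ρ g).symm v
      rw [← (ρ g).lt_iff_lt, OrderIso.apply_symm_apply]
      exact h1
    · exact h1
    · exact absurd h1 (key g)

/-- **Gluing to the lifts of a circle.**  Arbitrary pieces `Y i` in which the slope `l i` is
cofinal in every left order may be glued to the lifts of the circle around the third column of
`P(3, -3, 1)`, in the `n`-fold cyclic branched cover, with longitude lift `l i`: the union has no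
left-orderable fundamental group.  The other parts identify the condition and give examples of such
pieces: solid tori (a cyclic group `⟨t⟩` and `t ^ b`, `b ≠ 0`), twisted `I`-bundles over the Klein
bottle (all slopes except the rational longitude `b`), and unions of the product of a circle `h`
and a planar surface with such pieces, in which `l` is glued to the fibre `h`. -/
theorem result :
    (∀ n : ℕ, 0 < n → ∀ (Y : ZMod n → Type) [∀ i, Group (Y i)] (m l : ∀ i, Y i),
      (∀ i, Solid (Y i) (l i)) →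
      ¬ LeftOrderable (GluedGroup n Y m l) ∧
      ∀ (H : Type) [Group H], LeftOrderable H →
        ∀ f : GluedGroup n Y m l →* H, ∀ g, f g = 1) ∧
    (∀ (Y : Type) [Group Y] (l : Y), LeftOrderable Y →
      (Solid Y l ↔ CofinalInEveryOrder Y l)) ∧
    (∀ (Y : Type) [Group Y] (t : Y), Subgroup.closure {t} = ⊤ → ∀ b : ℤ, b ≠ 0 →
      Solid Y (t ^ b)) ∧
    (∀ (Y : Type) [Group Y] (a b : Y), Subgroup.closure {a, b} = ⊤ → a * b = b⁻¹ * a →
      ∀ p q : ℤ, p ≠ 0 → Solid Y (a ^ (2 * p) * b ^ q)) ∧
    (∀ (Y : Type) [Group Y] (h : Y) (κ : Type) (Z : κ → Type) [∀ k, Group (Z k)]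
      (l : ∀ k, Z k), (∀ k, Solid (Z k) (l k)) → ∀ j : ∀ k, Z k →* Y, (∀ k, j k (l k) = h) →
      Subgroup.zpowers h ⊔ ⨆ k, (j k).range = ⊤ → Solid Y h) := by
  refine ⟨?_, fun Y _ l hY => solid_iff Y l hY, fun Y _ t ht b hb => solid_cyclic Y t ht b hb,
    fun Y _ a b hgen h p q hp => solid_klein Y a b hgen h p q hp,
    fun Y _ h κ Z _ l hZ j hj hgen => solid_sum Y h Z l hZ j hj hgen⟩
  intro n hn Y _ m l hY
  have h : ∀ (H : Type) [Group H], LeftOrderable H →
      ∀ f : GluedGroup n Y m l →* H, ∀ g, f g = 1 :=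
    fun H _ hH f g => glued_trivial hn Y m l hY hH f g
  exact ⟨not_lo h, h⟩

end Pool.Agent.Results.MP_3d425c_gt.GluedPieces
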