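import Pool.Agent.U541.PB.Pos

set_option autoImplicit false

/-!
# Surgeries on the lifts of the band circles to cyclic branched covers of the trefoil

## The manifolds

Let `K ⊂ S³` be the pretzel knot with columns of `1, 1, 1` crossings (a trefoil knot) and let
`C 0, C 1, C 2` be unknotted circles around its three columns.  A circle `C j` bounds a disc which
meets the two strands of column `j`; these strands are antiparallel, so `C j` has linking number
`0` with `K`.  Let `Σ n` be the `n`-fold cyclic cover of `S³` branched along `K`.  Each `C j` has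
`n` lifts to `Σ n`, one in each sheet.  For rational numbers `r j i` (`j < 3`, `i` modulo `n`) let
`M n r` be the closed 3-manifold obtained from `Σ n` by Dehn surgery on these `3n` curves: on the
`i`-th lift of `C j` the slope is `den * μ - num * λ`, where `r j i = num / den`, and `μ`, `λ` are
the lifts of the meridian of `C j` and of its preferred longitude (the product of the two downward
meridians of the strands).

If `r j i = k j` are integers independent of the sheet `i` then the surgery puts `k j` full twists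
into the column `j`, and `M n r` is the `n`-fold cyclic branched cover of the pretzel knot with
columns of `1 + 2 k 0, 1 + 2 k 1, 1 + 2 k 2` crossings.  In general, `t j i = 1 + 2 r j i` is the
(rational) number of crossings of column `j` in sheet `i`; it may be different in different
sheets.

## The theorem

If `n ≤ 5` and `t j i ≥ 1` for all `j`, `i`, then every homomorphism from the fundamental group of
`M n r` to a left-orderable group is trivial.

For integers `r j` independent of `i` these are the cyclic branched covers of degree at most five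
of the pretzel knots `P(2p+1, 2q+1, 2r+1)`, `p, q, r ≥ 0` (starting result
`PositivePretzelCovers`).  The bound `n ≤ 5` is sharp: for `r = 0` the manifold `M 6 0` is the
six-fold cyclic branched cover of the trefoil, the Brieskorn manifold `Σ(2, 3, 6)`, which has
positive first Betti number.

## The idea

The group theory is in the starting library (`Pool.Agent.TH821.Hex.rel_trivial`, helper821): the
group is generated by `x i`, `v i`, `w i` with `x i * v i * w i = 1` and by elements `f i`, `g i`,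
`h i` which commute with `x i`, `v i`, `w i` and are powers of them with nonnegative rational
exponents; to every sheet `i` and every point `y` of a complete linear order on which the group
acts belong three points, whose order moves around a hexagon when `i` increases.  Here the diagram
of the link `K ∪ C 0 ∪ C 1 ∪ C 2` and the group of the exterior of the lifts are added.
-/

namespace Pool.Agent.Results.MP_3d425c_gt.PositiveBandSurgeries

open Pool.Agent.U541.PB

/-- A nontrivial group is left-orderable if it carries a strict total order that is invariant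
under left multiplication. -/
def LeftOrderable (G : Type*) [Group G] : Prop :=
  Nontrivial G ∧ ∃ lt : G → G → Prop, IsStrictTotalOrder G lt ∧
    ∀ a b c : G, lt a b ↔ lt (c * a) (c * b)

/-- One crossing of a vertical twist region: if the two strands, both oriented downwards, have
meridians `(x, y)` (left, right) above the crossing, then they have meridians `(y, y⁻¹ x y)`
below it.  The inverse is the crossing of the other handedness. -/
def crossing (G : Type*) [Group G] : Equiv.Perm (G × G) where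
  toFun w := (w.2, w.2⁻¹ * w.1 * w.2)
  invFun w := (w.1 * w.2 * w.1⁻¹, w.1)
  left_inv w := by ext <;> simp [mul_assoc]
  right_inv w := by ext <;> simp [mul_assoc]

/-- The meridian `a j` of the arc at the top of the diagram of `K` that joins the top right end of
column `j - 1` to the top left end of column `j`, oriented into column `j`. -/
def arc (j : Fin 3) : FreeGroup (Fin 3 ⊕ Fin 3) := FreeGroup.of (Sum.inl j)

/-- The meridian `c j` of the front arc of the circle `C j`. -/
def circle (j : Fin 3) : FreeGroup (Fin 3 ⊕ Fin 3) := FreeGroup.of (Sum.inr j)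

/-- The downward meridians of the two strands of column `j` below the circle `C j`: the circle
passes behind the two strands, and then, below, in front of them. -/
def below (j : Fin 3) : FreeGroup (Fin 3 ⊕ Fin 3) × FreeGroup (Fin 3 ⊕ Fin 3) :=
  ((circle j)⁻¹ * arc j * circle j, (circle j)⁻¹ * (arc (j + 1))⁻¹ * circle j)

/-- The numbers of crossings in the columns of `K`. -/
def base : Fin 3 → ℤ := ![1, 1, 1]

/-- The downward meridians of the two strands at the bottom of column `j`. -/
def bottom (j : Fin 3) : FreeGroup (Fin 3 ⊕ Fin 3) × FreeGroup (Fin 3 ⊕ Fin 3) :=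
  (crossing (FreeGroup (Fin 3 ⊕ Fin 3)) ^ base j) (below j)

/-- The bottom right end of column `j` is joined to the bottom left end of column `j + 1`. -/
def relator (j : Fin 3) : FreeGroup (Fin 3 ⊕ Fin 3) := (bottom j).2 * (bottom (j + 1)).1

/-- The loop around the two strands of column `j`, which is also the preferred longitude of the
circle `C j`. -/
def loop (j : Fin 3) : FreeGroup (Fin 3 ⊕ Fin 3) := arc j * (arc (j + 1))⁻¹

/-- The circle `C j` closes up behind the two strands of column `j`. -/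
def circleRelator (j : Fin 3) : FreeGroup (Fin 3 ⊕ Fin 3) :=
  circle j * loop j * (circle j)⁻¹ * (loop j)⁻¹

/-- The Wirtinger relators of the link `K ∪ C 0 ∪ C 1 ∪ C 2`. -/
def linkRelators : Set (FreeGroup (Fin 3 ⊕ Fin 3)) :=
  Set.range relator ∪ Set.range circleRelator

/-- The group of the link `K ∪ C 0 ∪ C 1 ∪ C 2`. -/
abbrev LinkGroup : Type := PresentedGroup linkRelators

/-- The quotient of the group of the link `K ∪ C 0 ∪ C 1 ∪ C 2` by the `n`-th power of the
meridian `a 0` of `K`. -/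
abbrev OrbifoldGroup (n : ℕ) : Type := PresentedGroup (linkRelators ∪ {arc 0 ^ n})

theorem crossing_pos {G : Type*} [Group G] (x y : G) :
    (crossing G ^ (1 : ℤ)) (x, y) = (y, y⁻¹ * x * y) := by
  rw [zpow_one]; rfl

theorem bottom_zero : bottom 0 = ((circle 0)⁻¹ * (arc 1)⁻¹ * circle 0,
    ((circle 0)⁻¹ * (arc 1)⁻¹ * circle 0)⁻¹ * ((circle 0)⁻¹ * arc 0 * circle 0) *
      ((circle 0)⁻¹ * (arc 1)⁻¹ * circle 0)) :=
  crossing_pos _ _

theorem bottom_one : bottom 1 = ((circle 1)⁻¹ * (arc 2)⁻¹ * circle 1,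
    ((circle 1)⁻¹ * (arc 2)⁻¹ * circle 1)⁻¹ * ((circle 1)⁻¹ * arc 1 * circle 1) *
      ((circle 1)⁻¹ * (arc 2)⁻¹ * circle 1)) :=
  crossing_pos _ _

theorem bottom_two : bottom 2 = ((circle 2)⁻¹ * (arc 0)⁻¹ * circle 2,
    ((circle 2)⁻¹ * (arc 0)⁻¹ * circle 2)⁻¹ * ((circle 2)⁻¹ * arc 2 * circle 2) *
      ((circle 2)⁻¹ * (arc 0)⁻¹ * circle 2)) :=
  crossing_pos _ _

/-- All relators of the orbifold group have degree `0`. -/
theorem degree_rel (n : ℕ) : ∀ w ∈ linkRelators ∪ {arc 0 ^ n},
    FreeGroup.lift (Sum.elim (fun _ : Fin 3 => (Multiplicative.ofAdd 1 : Multiplicative (ZMod n)))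
      (fun _ : Fin 3 => 1)) w = 1 := by
  rintro w ((⟨j, rfl⟩ | ⟨j, rfl⟩) | rfl)
  · fin_cases j
    · show FreeGroup.lift _ ((bottom 0).2 * (bottom 1).1) = 1
      rw [bottom_zero, bottom_one]
      simp [arc, circle]
    · show FreeGroup.lift _ ((bottom 1).2 * (bottom 2).1) = 1
      rw [bottom_one, bottom_two]
      simp [arc, circle]
    · show FreeGroup.lift _ ((bottom 2).2 * (bottom 0).1) = 1
      rw [bottom_two, bottom_zero]
      simp [arc, circle]
  · simp [circleRelator, arc, circle, loop]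
  · simp only [arc, map_pow, FreeGroup.lift_apply_of, Sum.elim_inl]
    rw [← ofAdd_nsmul]
    simp

/-- The homomorphism of the orbifold group to `Z/n` that sends all meridians `a j` of `K` to `1`
and all meridians `c j` of the circles to `0`. -/
def degree (n : ℕ) : OrbifoldGroup n →* Multiplicative (ZMod n) :=
  PresentedGroup.toGroup (degree_rel n)

/-- The fundamental group of the exterior of the `3n` lifts of the circles `C j` in the `n`-fold
cyclic cover of `S³` branched along `K`. -/
abbrev ExteriorGroup (n : ℕ) : Type := (degree n).ker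

/-- The slope `c ^ den * x ^ (- num)` of the circle `C j`, where `x` is its longitude. -/
def slope (n : ℕ) (j : Fin 3) (r : ℚ) : OrbifoldGroup n :=
  PresentedGroup.mk _ (circle j) ^ r.den * PresentedGroup.mk _ (loop j) ^ (-r.num)

/-- The slope of the `i`-th lift of the circle `C j`. -/
def liftedSlope (n : ℕ) (j : Fin 3) (i : ZMod n) (r : ℚ) : OrbifoldGroup n :=
  PresentedGroup.mk _ (arc 0) ^ i.val * slope n j r * (PresentedGroup.mk _ (arc 0) ^ i.val)⁻¹

theorem degree_circle (n : ℕ) (j : Fin 3) : degree n (PresentedGroup.mk _ (circle j)) = 1 :=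
  PresentedGroup.toGroup.of (degree_rel n)

theorem degree_arc (n : ℕ) (j : Fin 3) :
    degree n (PresentedGroup.mk _ (arc j)) = Multiplicative.ofAdd 1 :=
  PresentedGroup.toGroup.of (degree_rel n)

theorem degree_loop (n : ℕ) (j : Fin 3) : degree n (PresentedGroup.mk _ (loop j)) = 1 := by
  unfold loop
  rw [map_mul, map_inv, map_mul, map_inv, degree_arc, degree_arc, mul_inv_cancel]

theorem liftedSlope_mem (n : ℕ) (j : Fin 3) (i : ZMod n) (r : ℚ) :
    liftedSlope n j i r ∈ (degree n).ker := by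
  show degree n _ = 1
  unfold liftedSlope slope
  rw [map_mul, map_mul, map_mul, map_inv, map_pow _ (PresentedGroup.mk _ (circle j)), map_zpow,
    degree_circle, degree_loop]
  simp

/-- The fundamental group of the closed 3-manifold `M n r` obtained from the `n`-fold cyclic cover
of `S³` branched along `K` by Dehn surgery on the `3n` lifts of the circles, with the slope
`r j i` on the `i`-th lift of `C j`. -/
abbrev SurgeryGroup (n : ℕ) (r : Fin 3 → ZMod n → ℚ) : Type :=
  ExteriorGroup n ⧸ Subgroup.normalClosure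
    {y : ExteriorGroup n | ∃ j i, y.1 = liftedSlope n j i (r j i)}

/-- `G` has no nontrivial homomorphism to a left-orderable group; in particular it is not
left-orderable. -/
theorem not_lo {G : Type} [Group G]
    (h : ∀ (H : Type) [Group H], LeftOrderable H → ∀ f : G →* H, ∀ g, f g = 1) :
    ¬ LeftOrderable G := by
  intro hG
  obtain ⟨a, b, hab⟩ := hG.1
  have key := h G hG (MonoidHom.id _)
  exact hab ((key a).trans (key b).symm)

theorem lo_order {H : Type*} [Group H] (hH : LeftOrderable H) :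
    ∃ _ : LinearOrder H, ∀ a b c : H, a ≤ b ↔ c * a ≤ c * b := by
  classical
  obtain ⟨_, lt, hlt, hinv⟩ := hH
  refine ⟨linearOrderOfSTO lt, ?_⟩
  intro a b c
  show (a = b ∨ lt a b) ↔ (c * a = c * b ∨ lt (c * a) (c * b))
  rw [mul_right_inj, ← hinv]

theorem relA_aux {G : Type*} [Group G] (s X V c₀ c₁ : G) (k₀ : Commute X c₀)
    (R : (c₀⁻¹ * (X⁻¹ * s)⁻¹ * c₀)⁻¹ * (c₀⁻¹ * s * c₀) * (c₀⁻¹ * (X⁻¹ * s)⁻¹ * c₀) *
      (c₁⁻¹ * ((X * V)⁻¹ * s)⁻¹ * c₁) = 1) :
    s * (c₀ * X * c₁⁻¹) * s⁻¹ = c₀ * X * c₁⁻¹ * (X * V)⁻¹ := by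
  have h1 : c₀ * X = X * c₀ := k₀.eq.symm
  have h2 : (c₀⁻¹ * (X⁻¹ * s)⁻¹ * c₀)⁻¹ * (c₀⁻¹ * s * c₀) * (c₀⁻¹ * (X⁻¹ * s)⁻¹ * c₀) *
      (c₁⁻¹ * ((X * V)⁻¹ * s)⁻¹ * c₁) =
      c₀⁻¹ * X⁻¹ * s * X * c₀ * c₁⁻¹ * s⁻¹ * X * V * c₁ := by group
  rw [h2] at R
  calc s * (c₀ * X * c₁⁻¹) * s⁻¹
      = s * (X * c₀ * c₁⁻¹) * s⁻¹ := by rw [h1]
    _ = X * c₀ * (c₀⁻¹ * X⁻¹ * s * X * c₀ * c₁⁻¹ * s⁻¹ * X * V * c₁) * c₁⁻¹ * V⁻¹ * X⁻¹ := by
        group
    _ = X * c₀ * c₁⁻¹ * (X * V)⁻¹ := by rw [R]; group
    _ = _ := by rw [h1]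

theorem relB_aux {G : Type*} [Group G] (s X V c₁ c₂ : G) (k₁ : Commute V c₁)
    (R : (c₁⁻¹ * ((X * V)⁻¹ * s)⁻¹ * c₁)⁻¹ * (c₁⁻¹ * (X⁻¹ * s) * c₁) *
      (c₁⁻¹ * ((X * V)⁻¹ * s)⁻¹ * c₁) * (c₂⁻¹ * s⁻¹ * c₂) = 1) :
    s * (c₁ * V * c₂⁻¹) * s⁻¹ = X * (c₁ * V * c₂⁻¹) := by
  have h1 : c₁ * V = V * c₁ := k₁.eq.symm
  have h2 : (c₁⁻¹ * ((X * V)⁻¹ * s)⁻¹ * c₁)⁻¹ * (c₁⁻¹ * (X⁻¹ * s) * c₁) *
      (c₁⁻¹ * ((X * V)⁻¹ * s)⁻¹ * c₁) * (c₂⁻¹ * s⁻¹ * c₂) =
      c₁⁻¹ * V⁻¹ * X⁻¹ * s * V * c₁ * c₂⁻¹ * s⁻¹ * c₂ := by group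
  rw [h2] at R
  calc s * (c₁ * V * c₂⁻¹) * s⁻¹ = s * (V * c₁ * c₂⁻¹) * s⁻¹ := by rw [h1]
    _ = X * V * c₁ * (c₁⁻¹ * V⁻¹ * X⁻¹ * s * V * c₁ * c₂⁻¹ * s⁻¹ * c₂) * c₂⁻¹ := by group
    _ = X * (V * c₁ * c₂⁻¹) := by rw [R]; group
    _ = _ := by rw [h1]

theorem surgery_trivial {n : ℕ} (hn : 0 < n) (hn5 : n ≤ 5) (r : Fin 3 → ZMod n → ℚ)
    (h₀ : ∀ j i, 0 ≤ r j i)
    {H : Type*} [Group H] (hH : LeftOrderable H) (f : SurgeryGroup n r →* H)
    (y : SurgeryGroup n r) : f y = 1 := by
  obtain ⟨_, hinv⟩ := lo_order hH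
  set μ := PresentedGroup.mk (linkRelators ∪ {arc 0 ^ n}) with hμ
  have rel : ∀ w ∈ linkRelators, μ w = 1 := fun w hw => PresentedGroup.one_of_mem (Or.inl hw)
  set s := μ (arc 0) with hs0
  set X := μ (loop 0) with hX
  set V := μ (loop 1) with hV
  set c₀ := μ (circle 0) with hc₀
  set c₁ := μ (circle 1) with hc₁
  set c₂ := μ (circle 2) with hc₂
  have hs : s ^ n = 1 := by
    have h1 : μ (arc 0 ^ n) = 1 := PresentedGroup.one_of_mem (Or.inr rfl)
    rwa [map_pow] at h1
  have eX : X = s * (μ (arc 1))⁻¹ := by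
    rw [hX]; show μ (arc 0 * (arc 1)⁻¹) = _
    rw [map_mul, map_inv]
  have eV : V = μ (arc 1) * (μ (arc 2))⁻¹ := by
    rw [hV]; show μ (arc 1 * (arc 2)⁻¹) = _
    rw [map_mul, map_inv]
  have e1 : μ (arc 1) = X⁻¹ * s := by rw [eX]; group
  have e2 : μ (arc 2) = (X * V)⁻¹ * s := by rw [eV, eX]; group
  have eW : μ (loop 2) = (X * V)⁻¹ := by
    show μ (arc 2 * (arc 0)⁻¹) = _
    rw [map_mul, map_inv, e2, ← hs0]; group
  have kk : ∀ j, Commute (μ (loop j)) (μ (circle j)) := by
    intro j
    have h1 := rel (circleRelator j) (Or.inr ⟨j, rfl⟩)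
    unfold circleRelator at h1
    rw [map_mul, map_mul, map_mul, map_inv, map_inv, mul_inv_eq_one, mul_inv_eq_iff_eq_mul] at h1
    exact h1.symm
  have k₀ : Commute X c₀ := kk 0
  have k₁ : Commute V c₁ := kk 1
  have k₂ : Commute (X * V)⁻¹ c₂ := by
    rw [← eW]; exact kk 2
  have A : s * (c₀ * X * c₁⁻¹) * s⁻¹ = c₀ * X * c₁⁻¹ * (X * V)⁻¹ := by
    apply relA_aux s X V c₀ c₁ k₀
    have h1 : μ ((bottom 0).2 * (bottom 1).1) = 1 := rel (relator 0) (Or.inl ⟨0, rfl⟩)
    rw [bottom_zero, bottom_one] at h1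
    simp only [map_mul, map_inv] at h1
    rw [e1, e2] at h1
    exact h1
  have B : s * (c₁ * V * c₂⁻¹) * s⁻¹ = X * (c₁ * V * c₂⁻¹) := by
    apply relB_aux s X V c₁ c₂ k₁
    have h1 : μ ((bottom 1).2 * (bottom 2).1) = 1 := rel (relator 1) (Or.inl ⟨1, rfl⟩)
    rw [bottom_one, bottom_two] at h1
    simp only [map_mul, map_inv] at h1
    rw [e1, e2] at h1
    exact h1
  have hgen : Subgroup.closure (insert s {X, V, c₀, c₁, c₂}) = ⊤ := by
    set T := Subgroup.closure (insert s {X, V, c₀, c₁, c₂}) with hT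
    have sub : ∀ z ∈ (insert s {X, V, c₀, c₁, c₂} : Set (OrbifoldGroup n)), z ∈ T :=
      fun z hz => Subgroup.subset_closure hz
    have ms : s ∈ T := sub _ (by simp)
    have mX : X ∈ T := sub _ (by simp)
    have mV : V ∈ T := sub _ (by simp)
    have key : ∀ j, μ (FreeGroup.of j) ∈ T := by
      rintro (j | j)
      · fin_cases j
        · exact ms
        · show μ (arc 1) ∈ T
          rw [e1]; exact mul_mem (inv_mem mX) ms
        · show μ (arc 2) ∈ T
          rw [e2]; exact mul_mem (inv_mem (mul_mem mX mV)) ms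
      · fin_cases j
        · exact sub c₀ (by simp)
        · exact sub c₁ (by simp)
        · exact sub c₂ (by simp)
    rw [eq_top_iff, ← PresentedGroup.closure_range_of, Subgroup.closure_le]
    rintro _ ⟨j, rfl⟩
    exact key j
  -- the homomorphism from the group of the exterior
  set φ : ExteriorGroup n →* H := f.comp (QuotientGroup.mk' _) with hφ
  have dX : degree n X = 1 := degree_loop n 0
  have dV : degree n V = 1 := degree_loop n 1
  have d₀ : degree n c₀ = 1 := degree_circle n 0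
  have d₁ : degree n c₁ = 1 := degree_circle n 1
  have d₂ : degree n c₂ = 1 := degree_circle n 2
  have slopes : ∀ (j : Fin 3) (i : ZMod n) (c x : OrbifoldGroup n) (dc : degree n c = 1)
      (dx : degree n x = 1), c = μ (circle j) → x = μ (loop j) →
      φ (kch (degree n) s i ⟨c, dc⟩) ^ (r j i).den =
        φ (kch (degree n) s i ⟨x, dx⟩) ^ (r j i).num := by
    intro j i c x dc dx ec ex
    have h1 : φ (kch (degree n) s i (⟨c, dc⟩ ^ (r j i).den * ⟨x, dx⟩ ^ (-(r j i).num))) = 1 := by
      rw [hφ, MonoidHom.comp_apply]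
      have h2 : (QuotientGroup.mk' (Subgroup.normalClosure
          {y : ExteriorGroup n | ∃ j i, y.1 = liftedSlope n j i (r j i)}))
          (kch (degree n) s i (⟨c, dc⟩ ^ (r j i).den * ⟨x, dx⟩ ^ (-(r j i).num))) = 1 := by
        rw [QuotientGroup.mk'_apply, QuotientGroup.eq_one_iff]
        apply Subgroup.subset_normalClosure
        refine ⟨j, i, ?_⟩
        show Pool.Agent.TH821.Cyc.cj s
          ((⟨c, dc⟩ ^ (r j i).den * ⟨x, dx⟩ ^ (-(r j i).num) : (degree n).ker)).1 i = _
        subst ec ex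
        rfl
      rw [h2, map_one]
    rw [map_mul, map_mul, map_pow, map_pow, map_zpow, map_zpow, zpow_neg, mul_inv_eq_one] at h1
    exact h1
  have key := Pool.Agent.U541.PB.hom_trivial_pos hn hn5 hs hgen (degree n) (degree_arc n 0) dX
    dV d₀ d₁ d₂ k₀ k₁ k₂ A B (fun j i => (r j i).num.toNat)
    (fun j i => (r j i).den) (fun j i => (r j i).pos) hinv φ ?_ ?_ ?_
  · obtain ⟨z, rfl⟩ := QuotientGroup.mk'_surjective _ y
    exact key z
  · intro i
    have h1 : 0 ≤ (r 0 i).num := Rat.num_nonneg.mpr (h₀ 0 i)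
    have h3 := slopes 0 i c₀ X d₀ dX rfl rfl
    rw [h3]
    conv_lhs => rw [← Int.toNat_of_nonneg h1]
    exact zpow_natCast _ _
  · intro i
    have h1 : 0 ≤ (r 1 i).num := Rat.num_nonneg.mpr (h₀ 1 i)
    have h3 := slopes 1 i c₁ V d₁ dV rfl rfl
    rw [h3]
    conv_lhs => rw [← Int.toNat_of_nonneg h1]
    exact zpow_natCast _ _
  · intro i
    have h1 : 0 ≤ (r 2 i).num := Rat.num_nonneg.mpr (h₀ 2 i)
    have dW : degree n ((X * V)⁻¹) = 1 := by
      rw [map_inv, map_mul, dX, dV, mul_one, inv_one]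
    have h3 := slopes 2 i c₂ (X * V)⁻¹ d₂ dW rfl eW.symm
    rw [h3]
    have h4 : φ (kch (degree n) s i ⟨(X * V)⁻¹, dW⟩) =
        (φ (kch (degree n) s i ⟨X, dX⟩) * φ (kch (degree n) s i ⟨V, dV⟩))⁻¹ := by
      have e5 : (⟨(X * V)⁻¹, dW⟩ : (degree n).ker) = (⟨X, dX⟩ * ⟨V, dV⟩)⁻¹ := rfl
      rw [e5, map_inv, map_inv, map_mul, map_mul]
    rw [h4]
    conv_lhs => rw [← Int.toNat_of_nonneg h1]
    exact zpow_natCast _ _

/-- **Surgeries on the lifts of the band circles of the trefoil.**  At most five sheets, and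
every column has at least one crossing in every sheet, all of the same handedness. -/
theorem result (n : ℕ) (hn : 0 < n) (hn5 : n ≤ 5) (r : Fin 3 → ZMod n → ℚ)
    (h₀ : ∀ j i, 0 ≤ r j i) :
    ¬ LeftOrderable (SurgeryGroup n r) ∧
    ∀ (H : Type) [Group H], LeftOrderable H →
      ∀ f : SurgeryGroup n r →* H, ∀ g, f g = 1 := by
  have h : ∀ (H : Type) [Group H], LeftOrderable H →
      ∀ f : SurgeryGroup n r →* H, ∀ g, f g = 1 :=
    fun H _ hH f g => surgery_trivial hn hn5 r h₀ hH f g
  exact ⟨not_lo h, h⟩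

end Pool.Agent.Results.MP_3d425c_gt.PositiveBandSurgeries
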